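import Pool.Agent.H36.LC.All

/-!
# Posets of width `w` with at most `κ w` elements: `1/2 - δ ≤ κ² (C log log w / log w)^6`

Every finite poset `P` which has an antichain of `w ≥ 16` elements has
`1/2 - balance P ≤ (|P|/w)² (2^30 log log w / log w)^6`. This contains the posets of width `w` in which
all chains have at most `κ` elements, with `κ` for `|P|/w` (Mirsky). In another form: if `|P| ≤ κ w` and
`w ≥ exp (2^26 (κ²/ε)^(1/6) log (2κ²/ε))`, the balance constant is at least `1/2 - ε`. For the infimum
`dR κ w` of the balance constants of the posets of width `w` with at most `κ w` elements also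
`dR κ w ≤ 1/2 - 1/(12 w - 8)`, `κ ≥ 3`, so that `dR κ₀ w < dR κ v` for all
`v ≥ exp (2^29 (κ² w)^(1/6) log (κ² w))` (`κ₀, κ ≥ 3`), and there is a strict increase
`dR κ u < dR κ (u + 1)` between `w` and this bound. (For all posets the known distance to `1/2` is of
order `log log w / log w`; the bound above is smaller as long as `|P|/w` is less than about
`(log w / log log w)^(5/2)`.)

The proof. A random linear extension is replaced by a random order preserving map `f` to
`{0, …, M - 1}`, `M → ∞`.

1. `∑_z f z` has variance at most `n M² / 6`: for injective maps it is a function of the image, so that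
   its variance is not larger than that for an antichain (up to the factor `2`). By the FKG inequality all
   `Hs = P(f x ≤ s, f y ≤ t) - P(f x ≤ s) P(f y ≤ t)` are nonnegative, and their sum over `x, y, s, t` is
   this variance. So only `O(D)` elements `y`, on average over `x`, fail
   `∑_{s,t} Hs ≤ (κ / D) M²`.
2. The laws `p_x` of `f x` are log-concave (four functions theorem). For `w/6` elements `x` of the
   antichain `p_x ≤ 2^14 κ / M`: otherwise the lengths of the intervals in which `f x` can be moved are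
   at most `t = M / (2^7 κ)` for half of the elements, which is the case with small probability only,
   as is seen by inserting `M / κ` new values: this increases the number of the maps at most by the factor
   `2 (1 + 1/κ)^(κ w) ≤ 2 e^w`, and the number of the maps of this kind by the factor `2^(7w/2)` at least.
3. A small sum of the `Hs` and bounded densities imply `P(f x < f y) - P(f y < f x)` is near to
   `om (p_x, p_y) = ∑_{s<t} (p_x(s) p_y(t) - p_y(s) p_x(t))`.
4. `w` log-concave laws on `{0, …, 2^J - 1}` with densities at most `K = 2^14 κ` of which all pairs have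
   `|om| ≥ ε` are at most `exp (C (K²/ε)^(1/6) log (K²/ε))` many: `om` is a sum over the dyadic intervals
   of determinants of the masses of the two halves. Only `O(2^l)` dyadic intervals of length `L` have no
   linear function within `K 8^(-l) / L` of the law. (This is seen by a potential: on one side of the mode
   let `P_i` be the values on a grid of step `L`, `d_i = P_i - P_(i+1)`; then
   `min (d_i/√θ, √P_i) - 2 √P_i` is nondecreasing.) By pigeonhole the masses of the halves of these
   intervals and of their children can be assumed to be almost equal; the rest is a symplectic form of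
   vectors of norm `O(K 32^(-l/2))`, and there are at most `exp (C K² / (32^l ε))` vectors of a complex
   Hilbert space in general position with respect to such a form. `2^l ≈ (K²/ε)^(1/6)`.
-/

set_option autoImplicit false

namespace Pool.Agent.Results.MP_c890a7_co.FewElements

open Pool.Agent.H13R3.WB Pool.Agent.H931R3.Bal

/-- The infimum of the balance constants of the finite posets of width `w` with at most `κ w`
elements. -/
noncomputable def dR (κ w : ℕ) : ℝ :=
  sInf {d : ℝ | ∃ (P : Type) (_ : Fintype P) (_ : PartialOrder P),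
    Fintype.card P ≤ κ * w ∧ HasWidth P w ∧ balance P = d}

/-- **Main theorem.** (1) Posets with at most `κ w` elements and an antichain of `w` elements, or of
width `w` with all chains of at most `κ` elements, for
`w ≥ exp (2^26 (κ²/ε)^(1/6) log (2κ²/ε))`, have balance constant at least `1/2 - ε`; (2) for every
poset with an antichain `A` of at least `16` elements,
`1/2 - balance P ≤ (|P|/|A|)² (2^30 log log |A| / log |A|)^6`; (3)-(6) bounds for the infimum `dR κ w`
of the balance constants of the posets of width `w` with at most `κ w` elements, and its growth. -/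
theorem result :
    (∀ κ w : ℕ, 1 ≤ κ → ∀ ε : ℝ, 0 < ε → ε ≤ 1 / 2 →
      Real.exp (2 ^ 26 * ((κ : ℝ) ^ 2 / ε) ^ (1 / 6 : ℝ) * Real.log (2 * (κ : ℝ) ^ 2 / ε)) ≤ w →
      ∀ (P : Type) [Fintype P] [PartialOrder P],
        ((∃ A : Finset P, IsAntichain (· ≤ ·) (A : Set P) ∧ A.card = w) ∧
            Fintype.card P ≤ κ * w) ∨
          (HasWidth P w ∧ ∀ C : Finset P, IsChain (· ≤ ·) (C : Set P) → C.card ≤ κ) →
        1 / 2 - ε ≤ balance P) ∧
    (∀ (P : Type) [Fintype P] [PartialOrder P] (A : Finset P),
      IsAntichain (· ≤ ·) (A : Set P) → 16 ≤ A.card →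
      1 / 2 - ((Fintype.card P : ℝ) / A.card) ^ 2 *
        (2 ^ 30 * (Real.log (Real.log A.card) / Real.log A.card)) ^ 6 ≤ balance P) ∧
    (∀ κ w : ℕ, 1 ≤ κ → 16 ≤ w →
      1 / 2 - (κ : ℝ) ^ 2 * (2 ^ 29 * (Real.log (Real.log w) / Real.log w)) ^ 6 ≤ dR κ w) ∧
    (∀ κ w : ℕ, 3 ≤ κ → 1 ≤ w → dR κ w ≤ 1 / 2 - 1 / (12 * (w : ℝ) - 8)) ∧
    (∀ κ₀ κ w v : ℕ, 3 ≤ κ₀ → 3 ≤ κ → 1 ≤ w →
      Real.exp (2 ^ 29 * ((κ : ℝ) ^ 2 * w) ^ (1 / 6 : ℝ) * Real.log ((κ : ℝ) ^ 2 * w)) ≤ v →
      dR κ₀ w < dR κ v) ∧
    (∀ κ w : ℕ, 3 ≤ κ → 1 ≤ w → ∃ u : ℕ, w ≤ u ∧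
      (u : ℝ) ≤
        Real.exp (2 ^ 29 * ((κ : ℝ) ^ 2 * w) ^ (1 / 6 : ℝ) * Real.log ((κ : ℝ) ^ 2 * w)) ∧
      dR κ u < dR κ (u + 1)) := by
  refine ⟨?_, fun P _ _ A hA hw => Pool.Agent.H36.LC.T.gen Pool.Agent.H36.LC.thm_all P A hA hw,
    fun κ w hκ hw => Pool.Agent.H36.LC.T.rate Pool.Agent.H36.LC.thm_all κ w hκ hw,
    fun κ w hκ hw => Pool.Agent.H36.BK.dR_le Pool.Agent.H36.BK.ex_all κ w hκ hw,
    fun κ₀ κ w v hκ₀ hκ hw hv => Pool.Agent.H36.LC.T.growth Pool.Agent.H36.LC.thm_all
      Pool.Agent.H36.BK.ex_all κ₀ κ w v hκ₀ hκ hw hv,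
    fun κ w hκ hw => Pool.Agent.H36.LC.T.step Pool.Agent.H36.LC.thm_all
      Pool.Agent.H36.BK.ex_all κ w hκ hw⟩
  intro κ w hκ ε hε hε2 hw P _ _ h
  rcases h with ⟨⟨A, hA, hAc⟩, hP⟩ | ⟨hW, hC⟩
  · exact Pool.Agent.H36.LC.thm_all κ w ε hκ hε hε2 hw P A hA hAc hP
  · have hP := Pool.Agent.H36.BK.mir_all κ w P hW hC
    obtain ⟨⟨A, hA, hAc⟩, -⟩ := hW
    exact Pool.Agent.H36.LC.thm_all κ w ε hκ hε hε2 hw P A hA hAc hP

end Pool.Agent.Results.MP_c890a7_co.FewElements
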