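import Mathlib
import Pool.Agent.H34.L.W5h81.RF.Upper
import Pool.Agent.H34.FP.Main

/-!
# Rooted forests: `1/2 - δ ≤ 2 exp (- (log w)^(2/3) / 150)`

A rooted forest is a finite poset in which the elements below any given element form a chain. For
`s ≥ 1` every rooted forest with an antichain of at least `2 ^ (500 s³)` elements has two incomparable
elements `x`, `y` with `|Pr[x < y] - 1/2| ≤ 2 ^ (-s²)`. So the infimum `dF w` of the balance constants
of the rooted forests of width `w` is at least `1/2 - 2 exp (- (log w)^(2/3) / 150)`; it is at most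
`1/2 - 1 / (12 w - 8)`. Hence `dF w < dF v` for all `v ≥ exp (25000 (log (w + 1))^(3/2))`, and between
`w` and `exp (25000 (log (w + 1))^(3/2))` there is a strict increase `dF u < dF (u + 1)`.

The proof. As in earlier work, `Pr[x < y]` is the probability that one sum of independent exponential
random variables is smaller than another one, the rates being the sizes of the up-sets of the elements
below `x` and below `y`. New: the forest is cut at the elements with up-sets of size about `2 ^ (s²)`,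
and above each of them only one leaf is used, the one which is reached by always going to the child
with the smallest up-set. Along this path the sizes drop by one or are at least halved, so the small
sizes form few intervals (`3 s + 2` are relevant, by the decay of the Fourier transform) and there are
at most `2 ^ O(s³)` possibilities for them. If they are the same for two leaves up to
`2 ^ (e + s)`, where `2 ^ e` is the relevant frequency, then only the first `O(s)` power sums of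
the inverses of the other sizes have to be compared, since the others are small. So a pigeonhole
argument needs only `2 ^ O(s³)` leaves for an error `2 ^ (-s²)`.
-/

set_option autoImplicit false

namespace Pool.Agent.Results.MP_c890a7_co.ForestLightPaths

open Pool.Agent.H13R3.WB Pool.Agent.H931R3.Bal

/-- A rooted forest: the elements below any given element form a chain. -/
def IsRootedForest (P : Type) [PartialOrder P] : Prop :=
  ∀ x a b : P, a ≤ x → b ≤ x → a ≤ b ∨ b ≤ a

/-- The infimum of the balance constants of the finite rooted forests of width `w`. -/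
noncomputable def dF (w : ℕ) : ℝ :=
  sInf {d : ℝ | ∃ (P : Type) (_ : Fintype P) (_ : PartialOrder P), IsRootedForest P ∧
    HasWidth P w ∧ balance P = d}

lemma balance_ge_of_antichain (P : Type) [Fintype P] [PartialOrder P] (hP : IsRootedForest P)
    (s : ℕ) (hs : 1 ≤ s) (S : Finset P) (hS : IsAntichain (· ≤ ·) (S : Set P))
    (hc : 2 ^ (500 * s ^ 3) ≤ S.card) : 1 / 2 - (1 / 2) ^ (s * s) ≤ balance P := by
  classical
  obtain ⟨x, y, hxy, hyx, h⟩ := Pool.Agent.H34.FP.forest_balance3 hP s hs S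
    (fun a ha b hb hab => by
      by_contra hne
      exact hS ha hb hne hab) hc
  have hadd := prob_add (P := P) (x := x) (y := y) (fun h => hxy h.le)
  rw [abs_le] at h
  refine le_trans (le_min ?_ ?_) (le_balance x y) <;> linarith [h.1, h.2]

lemma nonempty_of_width {P : Type} [PartialOrder P] {w : ℕ} (hw : 1 ≤ w) (h : HasWidth P w) :
    Nonempty P := by
  obtain ⟨⟨A, _, hAc⟩, _⟩ := h
  obtain ⟨x, _⟩ := Finset.card_pos.1 (show 0 < A.card by omega)
  exact ⟨x⟩

lemma balance_ge_of_width (P : Type) [Fintype P] [PartialOrder P] (hP : IsRootedForest P)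
    (w : ℕ) (hw1 : 1 ≤ w) (hw : HasWidth P w) :
    1 / 2 - 2 * Real.exp (-(Real.log w ^ (2 / 3 : ℝ) / 150)) ≤ balance P := by
  have hne := nonempty_of_width hw1 hw
  obtain ⟨⟨S, hS, hSc⟩, -⟩ := hw
  have hw1R : (1 : ℝ) ≤ w := by exact_mod_cast hw1
  have hlog0 : 0 ≤ Real.log w := Real.log_nonneg hw1R
  obtain ⟨a, ha⟩ : ∃ a : ℝ, a = Real.log w ^ (1 / 3 : ℝ) := ⟨_, rfl⟩
  have ha0 : 0 ≤ a := by rw [ha]; positivity
  have ha3 : a ^ 3 = Real.log w := by
    rw [ha, ← Real.rpow_natCast, ← Real.rpow_mul hlog0]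
    norm_num
  have ha2 : a ^ 2 = Real.log w ^ (2 / 3 : ℝ) := by
    rw [ha, ← Real.rpow_natCast, ← Real.rpow_mul hlog0]
    norm_num
  rw [← ha2]
  obtain ⟨s, hs⟩ : ∃ s : ℕ, s = ⌊a / 7.05⌋₊ := ⟨_, rfl⟩
  have hs0 : 0 ≤ a / 7.05 := by positivity
  have hsle : (s : ℝ) ≤ a / 7.05 := by rw [hs]; exact Nat.floor_le hs0
  have hslt : a / 7.05 < s + 1 := by rw [hs]; exact Nat.lt_floor_add_one _
  have hl2 := Real.log_two_gt_d9
  have hl2' := Real.log_two_lt_d9
  have hexp : ((1 : ℝ) / 2) ^ (s * s) ≤ 2 * Real.exp (-(a ^ 2 / 150)) := by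
    have e1 : ((1 : ℝ) / 2) ^ (s * s) = Real.exp (-((s : ℝ) * s * Real.log 2)) := by
      rw [show -((s : ℝ) * s * Real.log 2) = ((s * s : ℕ) : ℝ) * (-Real.log 2) by push_cast; ring,
        Real.exp_nat_mul, Real.exp_neg, Real.exp_log (by norm_num), one_div]
    have e2 : (2 : ℝ) * Real.exp (-(a ^ 2 / 150)) = Real.exp (Real.log 2 - a ^ 2 / 150) := by
      rw [sub_eq_add_neg, Real.exp_add, Real.exp_log (by norm_num)]
    rw [e1, e2]
    apply Real.exp_le_exp.2
    -- `a² / 150 ≤ (s² + 1) log 2`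
    have h1 : (a / 7.05) ^ 2 / 2 ≤ (s : ℝ) * s + 1 := by
      nlinarith [sq_nonneg ((s : ℝ) - 1)]
    have h2 : a ^ 2 / 150 ≤ (a / 7.05) ^ 2 / 2 * Real.log 2 := by
      have h3 : (a / 7.05) ^ 2 / 2 * Real.log 2 = a ^ 2 * (Real.log 2 / (2 * 7.05 ^ 2)) := by
        field_simp
      rw [h3, div_eq_mul_inv]
      apply mul_le_mul_of_nonneg_left _ (by positivity)
      rw [le_div_iff₀ (by norm_num)]
      norm_num
      linarith
    nlinarith
  rcases Nat.eq_zero_or_pos s with h0 | h0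
  · rw [h0, Nat.zero_mul, pow_zero] at hexp
    have : 0 ≤ balance P := balance_nonneg
    linarith
  · have hcard : 2 ^ (500 * s ^ 3) ≤ S.card := by
      rw [hSc]
      have h1 : (s : ℝ) ^ 3 ≤ (a / 7.05) ^ 3 := pow_le_pow_left₀ (by positivity) hsle 3
      have h2 : (500 : ℝ) * s ^ 3 * Real.log 2 ≤ Real.log w := by
        rw [← ha3]
        have h3 : (a / 7.05) ^ 3 = a ^ 3 / 7.05 ^ 3 := div_pow _ _ _
        rw [h3] at h1
        have h4 : (500 : ℝ) * s ^ 3 * Real.log 2 ≤ 500 * (a ^ 3 / 7.05 ^ 3) * Real.log 2 := by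
          apply mul_le_mul_of_nonneg_right _ (by linarith)
          exact mul_le_mul_of_nonneg_left h1 (by norm_num)
        refine h4.trans ?_
        have h5 : 500 * (a ^ 3 / 7.05 ^ 3) * Real.log 2 = a ^ 3 * (500 * Real.log 2 / 7.05 ^ 3) := by
          ring
        rw [h5]
        have h6 : 500 * Real.log 2 / 7.05 ^ 3 ≤ 1 := by
          rw [div_le_one (by norm_num)]
          norm_num
          linarith
        calc a ^ 3 * (500 * Real.log 2 / 7.05 ^ 3) ≤ a ^ 3 * 1 :=
              mul_le_mul_of_nonneg_left h6 (by positivity)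
          _ = a ^ 3 := mul_one _
      have h3 : ((2 : ℝ) ^ (500 * s ^ 3)) ≤ w := by
        rw [← Real.log_le_log_iff (by positivity) (by linarith), Real.log_pow]
        push_cast
        linarith
      exact_mod_cast h3
    have h2 := balance_ge_of_antichain P hP s h0 S hS hcard
    linarith

lemma dF_bddBelow (w : ℕ) (hw : 1 ≤ w) : BddBelow {d : ℝ | ∃ (P : Type) (_ : Fintype P)
    (_ : PartialOrder P), IsRootedForest P ∧ HasWidth P w ∧ balance P = d} := by
  refine ⟨0, ?_⟩
  rintro d ⟨Q, _, _, _, h4, rfl⟩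
  have := nonempty_of_width hw h4
  exact balance_nonneg

lemma dF_le (w : ℕ) (hw : 1 ≤ w) : dF w ≤ 1 / 2 - 1 / (12 * (w : ℝ) - 8) := by
  obtain ⟨P, i1, i2, h1, h2, h3⟩ := Pool.Agent.W5h81.RF.exists_forest w hw
  exact le_trans (csInf_le (dF_bddBelow w hw) ⟨P, i1, i2, h1, h2, rfl⟩) h3

lemma dF_ge (w : ℕ) (hw : 1 ≤ w) :
    1 / 2 - 2 * Real.exp (-(Real.log w ^ (2 / 3 : ℝ) / 150)) ≤ dF w := by
  unfold dF
  apply le_csInf
  · obtain ⟨P, i1, i2, h1, h2, -⟩ := Pool.Agent.W5h81.RF.exists_forest w hw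
    exact ⟨_, P, i1, i2, h1, h2, rfl⟩
  · rintro d ⟨P, _, _, h1, h2, rfl⟩
    exact balance_ge_of_width P h1 w hw h2

lemma growth (w : ℕ) (hw : 1 ≤ w) (v : ℕ)
    (hv : Real.exp (25000 * Real.log (w + 1) ^ (3 / 2 : ℝ)) ≤ v) : dF w < dF v := by
  have hw1 : (1 : ℝ) ≤ w := by exact_mod_cast hw
  have hl2 : (0.6931471803 : ℝ) < Real.log 2 := Real.log_two_gt_d9
  have hlw : Real.log 2 ≤ Real.log ((w : ℝ) + 1) := Real.log_le_log (by norm_num) (by linarith)
  have hb0 : 0 ≤ Real.log ((w : ℝ) + 1) := by linarith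
  have hv0 : (0 : ℝ) < v := lt_of_lt_of_le (Real.exp_pos _) hv
  have hv1 : 1 ≤ v := by exact_mod_cast hv0
  have h1 := dF_le w hw
  have h2 := dF_ge v hv1
  have h3 : 25000 * Real.log ((w : ℝ) + 1) ^ (3 / 2 : ℝ) ≤ Real.log v := by
    rw [Real.le_log_iff_exp_le hv0]
    exact hv
  have h4 : (854 : ℝ) * Real.log ((w : ℝ) + 1) ≤ Real.log v ^ (2 / 3 : ℝ) := by
    have h5 : (25000 * Real.log ((w : ℝ) + 1) ^ (3 / 2 : ℝ)) ^ (2 / 3 : ℝ) ≤
        Real.log v ^ (2 / 3 : ℝ) :=
      Real.rpow_le_rpow (by positivity) h3 (by norm_num)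
    refine le_trans ?_ h5
    rw [Real.mul_rpow (by norm_num) (by positivity), ← Real.rpow_mul hb0]
    have h6 : (3 / 2 : ℝ) * (2 / 3) = 1 := by norm_num
    rw [h6, Real.rpow_one]
    apply mul_le_mul_of_nonneg_right _ hb0
    have h7 : (854 : ℝ) = ((854 : ℝ) ^ (3 : ℕ)) ^ (1 / 3 : ℝ) := by
      rw [← Real.rpow_natCast, ← Real.rpow_mul (by norm_num)]
      norm_num
    have h8 : (25000 : ℝ) ^ (2 / 3 : ℝ) = ((25000 : ℝ) ^ (2 : ℕ)) ^ (1 / 3 : ℝ) := by
      rw [← Real.rpow_natCast, ← Real.rpow_mul (by norm_num)]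
      norm_num
    rw [h7, h8]
    exact Real.rpow_le_rpow (by norm_num) (by norm_num) (by norm_num)
  have h5 : Real.log (24 * ((w : ℝ) + 1)) ≤ Real.log v ^ (2 / 3 : ℝ) / 150 := by
    rw [Real.log_mul (by norm_num) (by linarith)]
    have h6 : 41 * Real.log 24 ≤ 188 * Real.log 2 := by
      have h7 : ((24 : ℝ)) ^ 41 ≤ 2 ^ 188 := by norm_num
      have h8 := Real.log_le_log (by positivity) h7
      rw [Real.log_pow, Real.log_pow] at h8
      exact_mod_cast h8
    linarith
  have h6 : Real.exp (-(Real.log v ^ (2 / 3 : ℝ) / 150)) ≤ 1 / (24 * ((w : ℝ) + 1)) := by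
    rw [Real.exp_neg, ← one_div]
    apply one_div_le_one_div_of_le (by linarith)
    rw [← Real.log_le_iff_le_exp (by linarith)]
    exact h5
  have h7 : 2 * (1 / (24 * ((w : ℝ) + 1))) < 1 / (12 * (w : ℝ) - 8) := by
    have e : 2 * (1 / (24 * ((w : ℝ) + 1))) = 1 / (12 * (w : ℝ) + 12) := by
      field_simp
      ring
    rw [e]
    apply one_div_lt_one_div_of_lt
    · linarith
    · linarith
  linarith

lemma strict_step (w : ℕ) (hw : 1 ≤ w) : ∃ u : ℕ, w ≤ u ∧
    (u : ℝ) ≤ Real.exp (25000 * Real.log (w + 1) ^ (3 / 2 : ℝ)) ∧ dF u < dF (u + 1) := by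
  obtain ⟨v, hv⟩ : ∃ v : ℕ, v = ⌈Real.exp (25000 * Real.log ((w : ℝ) + 1) ^ (3 / 2 : ℝ))⌉₊ := ⟨_, rfl⟩
  have hw1 : (1 : ℝ) ≤ w := by exact_mod_cast hw
  have hle : Real.exp (25000 * Real.log ((w : ℝ) + 1) ^ (3 / 2 : ℝ)) ≤ v := by
    rw [hv]; exact Nat.le_ceil _
  have hlt : (v : ℝ) < Real.exp (25000 * Real.log ((w : ℝ) + 1) ^ (3 / 2 : ℝ)) + 1 := by
    rw [hv]; exact Nat.ceil_lt_add_one (Real.exp_pos _).le
  have hg := growth w hw v hle
  have hwv : w ≤ v := by
    by_contra h
    rw [not_le] at h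
    have hl2 : (0.6931471803 : ℝ) < Real.log 2 := Real.log_two_gt_d9
    have hlw : Real.log 2 ≤ Real.log ((w : ℝ) + 1) := Real.log_le_log (by norm_num) (by linarith)
    have hb0 : 0 < Real.log ((w : ℝ) + 1) := by linarith
    have h0 : (1 / 2 : ℝ) ≤ Real.log ((w : ℝ) + 1) ^ (1 / 2 : ℝ) := by
      rw [← Real.sqrt_eq_rpow]
      apply Real.le_sqrt_of_sq_le
      norm_num
      linarith
    have h1 : Real.log ((w : ℝ) + 1) ≤ 25000 * Real.log ((w : ℝ) + 1) ^ (3 / 2 : ℝ) := by
      have e : Real.log ((w : ℝ) + 1) ^ (3 / 2 : ℝ) =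
          Real.log ((w : ℝ) + 1) * Real.log ((w : ℝ) + 1) ^ (1 / 2 : ℝ) := by
        rw [← Real.rpow_one_add' hb0.le (by norm_num)]
        norm_num
      rw [e]
      nlinarith
    have h2 : (w : ℝ) + 1 ≤ Real.exp (25000 * Real.log ((w : ℝ) + 1) ^ (3 / 2 : ℝ)) := by
      rw [← Real.log_le_iff_le_exp (by linarith)]
      exact h1
    have h3 : (v : ℝ) < w := by exact_mod_cast h
    linarith
  by_contra hcon
  push Not at hcon
  have key : ∀ k : ℕ, w ≤ k → k ≤ v → dF k ≤ dF w := by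
    intro k hk
    induction k, hk using Nat.le_induction with
    | base => intro _; exact le_rfl
    | succ k hk ih =>
      intro hkv
      have h1 := ih (by omega)
      have h2 : ((k + 1 : ℕ) : ℝ) ≤ v := by exact_mod_cast hkv
      push_cast at h2
      have h3 := hcon k hk (by linarith)
      linarith
  have := key v hwv le_rfl
  linarith

/-- **Main theorem.** Rooted forests with an antichain of `2 ^ (500 s³)` elements have a pair which is
balanced up to `2 ^ (-s²)`; bounds for the infimum `dF w` of the balance constants of the rooted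
forests of width `w`, and its growth. -/
theorem result :
    (∀ (P : Type) [Fintype P] [PartialOrder P], IsRootedForest P → ∀ s : ℕ, 1 ≤ s →
      ∀ S : Finset P, IsAntichain (· ≤ ·) (S : Set P) → 2 ^ (500 * s ^ 3) ≤ S.card →
        ∃ x y : P, ¬ x ≤ y ∧ ¬ y ≤ x ∧ |prob P x y - 1 / 2| ≤ (1 / 2) ^ (s ^ 2)) ∧
    (∀ w : ℕ, 1 ≤ w → 1 / 2 - 2 * Real.exp (-(Real.log w ^ (2 / 3 : ℝ) / 150)) ≤ dF w ∧
      dF w ≤ 1 / 2 - 1 / (12 * (w : ℝ) - 8)) ∧
    (∀ w v : ℕ, 1 ≤ w → Real.exp (25000 * Real.log (w + 1) ^ (3 / 2 : ℝ)) ≤ v → dF w < dF v) ∧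
    (∀ w : ℕ, 1 ≤ w → ∃ u : ℕ, w ≤ u ∧
      (u : ℝ) ≤ Real.exp (25000 * Real.log (w + 1) ^ (3 / 2 : ℝ)) ∧ dF u < dF (u + 1)) := by
  classical
  refine ⟨?_, fun w hw => ⟨dF_ge w hw, dF_le w hw⟩, fun w v hw hv => growth w hw v hv,
    strict_step⟩
  intro P _ _ hP s hs S hS hc
  rw [sq]
  exact Pool.Agent.H34.FP.forest_balance3 hP s hs S
    (fun a ha b hb hab => by
      by_contra hne
      exact hS ha hb hne hab) hc

end Pool.Agent.Results.MP_c890a7_co.ForestLightPaths
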