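import Pool.Agent.H34.RK.Asm5

/-!
# The minimal balance constants of width `w` stay `(log w)^(-3061)` away from one half

Let `δ_w` be the infimum of the balance constants of the finite posets of width `w`, exactly as in the
problem. It is known that `1/2 - δ_w ≤ C loglog w / log w`, and that `1/2 - δ_w ≥ c log w / w`. We show
`1/2 - δ_w ≥ 1 / (log w)^3061` for all large `w`: the rate in the theorem that posets of large width are
nearly balanced is polylogarithmic. Hence `δ_w < δ_v` as soon as `v ≥ exp ((log w)^3062)` (before:
`v ≥ exp (C w)`), and there is a strict increase `δ_u < δ_(u+1)` with `w ≤ u ≤ exp ((log w)^3062)`.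

The posets have at most `2 w` elements. So the same is true for all restrictions of the number `n` of
elements which allow `n ≤ 2 w`: let `K w n` be any condition that holds if `n ≤ 2 w`, and let `δ w` be the
infimum of the balance constants of the posets of width `w` for whose number of elements `K w n` is
true. For the condition that is always true, this is the `δ_w` of the problem. (No attempt was
made to find a good exponent. For small `w` the known bound is `1/2 - δ_w ≥ 1 / (12 w - 8)`.)

The construction. Between a bottom chain and a top chain there are `N`, about `2^J`, gadgets, each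
consisting of two centres `x < y` and satellites `z` with `x < z < y`, some of them above certain
elements (frontiers) of the bottom chain, the others below certain frontiers of the top chain. By
force balance and log-concavity (Prekopa's theorem) the frontiers are concentrated near an arithmetic
progression with difference `g = poly(1/J)` next to `0`, and next to `1`, and given the frontiers the
gadgets are independent. Which frontiers are used is coded in blocks of length `3^40`, each carrying a
class of the Prouhet-Thue-Morse partition of `{0, ..., 3^40 - 1}` into three parts. So all linear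
functionals of two gadgets agree to high order in `g`, and the difference `P(a < b) - P(b < a)` of two
corresponding elements is a skew bilinear form of the two codes, of exact order `g^4` or `g^6`,
proportional to a sum of rock-paper-scissors outcomes over the blocks; a code with `2^J` words of
length `poly(J)` makes all these sums nonzero. Elements of different kinds differ at order `g^2` or
more. At most `poly(J)` additional pairs `e < d` above frontiers give all widths.

The lower bound for `δ_v` used in the second and the third part is the known one.
-/

set_option autoImplicit false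

namespace Pool.Agent.Results.MP_c890a7_co.PolylogarithmicRate

theorem result : ∃ w₀ : ℕ, ∀ K : ℕ → ℕ → Prop, (∀ w n : ℕ, n ≤ 2 * w → K w n) → ∀ δ : ℕ → ℝ,
      (∀ w : ℕ, δ w = sInf {d : ℝ | ∃ (n : ℕ) (r : Fin n → Fin n → Prop), K w n ∧
          (∀ a, r a a) ∧ (∀ a b c, r a b → r b c → r a c) ∧
          (∀ a b, r a b → r b a → a = b) ∧
          (∃ s : Finset (Fin n), s.card = w ∧ ∀ a ∈ s, ∀ b ∈ s, a ≠ b → ¬ r a b) ∧
          (∀ s : Finset (Fin n), (∀ a ∈ s, ∀ b ∈ s, a ≠ b → ¬ r a b) → s.card ≤ w) ∧
          d = sSup {t : ℝ | ∃ x y : Fin n, ¬ r x y ∧ ¬ r y x ∧
            t = min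
              ((Nat.card {σ : Equiv.Perm (Fin n) //
                  (∀ a b, r a b → σ a ≤ σ b) ∧ σ x < σ y} : ℝ) /
                (Nat.card {σ : Equiv.Perm (Fin n) // ∀ a b, r a b → σ a ≤ σ b} : ℝ))
              ((Nat.card {σ : Equiv.Perm (Fin n) //
                  (∀ a b, r a b → σ a ≤ σ b) ∧ σ y < σ x} : ℝ) /
                (Nat.card {σ : Equiv.Perm (Fin n) // ∀ a b, r a b → σ a ≤ σ b} : ℝ))}}) →
      (∀ w : ℕ, w₀ ≤ w → δ w ≤ 1 / 2 - 1 / Real.log w ^ 3061) ∧
      (∀ w v : ℕ, w₀ ≤ w → Real.exp (Real.log w ^ 3062) ≤ v → δ w < δ v) ∧
      (∀ w : ℕ, w₀ ≤ w → ∃ u : ℕ, w ≤ u ∧ (u : ℝ) ≤ Real.exp (Real.log w ^ 3062) ∧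
        δ u < δ (u + 1)) :=
  Pool.Agent.H34.RK.Asm.t_finE

end Pool.Agent.Results.MP_c890a7_co.PolylogarithmicRate
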