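import Pool.Agent.H34.BL.Asm7

/-!
# Posets with at most `w^(13/10)` elements: `1/2 - δ ≤ (C (log log w)^2 / log w)^6`

There is a constant `C` such that every finite poset `P` which has an antichain of `w ≥ 16` elements and
at most `w^(13/10)` elements has `1/2 - balance P ≤ (C (log log w)^2 / log w)^6`. In another form: the
balance constant of such a poset is at least `1/2 - ε`, if
`w ≥ exp (C ε^(-1/6) (log (2/ε))^2)`. For the infimum `dP w` of the balance constants of the posets of
width `w` with at most `w^(13/10)` elements we have, for large `w`,

`1/2 - (C (log log w)^2 / log w)^6 ≤ dP w ≤ 1/2 - (log w)^(-3061)`,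

`dP w < dP v` for all `v ≥ exp ((log w)^511)`, and `dP u < dP (u + 1)` for some `u` between `w` and
`exp ((log w)^511)`.

For all posets with an antichain of `w` elements the known rate is `C log log w / log w`
(`TournamentRate` of the library); for posets with at most `κ w` elements the results of this kind
(`FewElements`) have `κ` in the bound, and are better than the general one only for `κ` at most a
fixed power of `log w`. Here `κ = w^(3/10)`.

The proof. A random linear extension is replaced by a random order preserving map `f` to
`{0, …, M - 1}`, `M → ∞`. Put `κ = ⌈|P| / w⌉`.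

1. For `w/6` elements `x` of the antichain the law `p_x` of `f x` (log-concave by the four functions
   theorem) is at most `K / M`, `K = 2^16 κ`: otherwise half of the elements could be moved in short
   intervals only, and inserting `M/κ` new values one sees that this is unlikely.
2. The elements are grouped by the number `i` with `2^i ≤ M max p_x < 2^(i+1)` and by the place of the mode
   of `p_x` up to `M / 2^i`. There are at most `4 K` classes; one contains `w / (2^20 κ)` elements. The laws
   have exponential tails at the scale `M / 2^i`; so, up to a mass smaller than a given power of `ε`, those of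
   one class live in a common window of length `O(log (2/ε)) M / 2^i`, in which their relative densities are
   `O(log (2/ε))`, whatever `κ` is.
3. For a window of length `L` the variance of `∑_z #{s in the window : f z ≤ s}` is at most `|P| L²` (the
   sum is a function of the image of `f`, for injective `f`); by the FKG inequality it dominates the sum of
   the nonnegative covariances of the pairs. So all but `C(ε) |P|` of the pairs in the class are almost
   independent inside the window, which is enough as the class has at least `w / (2^20 κ)` elements
   and `κ^3` is much smaller than `w`. For these pairs `P(f x < f y) - P(f y < f x)` is near to the skew form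
   `om (p_x, p_y) = ∑_{s<t} (p_x(s) p_y(t) - p_y(s) p_x(t))` of the laws restricted to the window.
4. Log-concave laws in a window of length `2^J` with densities at most `K' / 2^J` of which all pairs
   have `|om| ≥ ε` are at most `exp (C K'^2 ε^(-1/6) log (2/ε))` many: `om` is a sum over the dyadic
   intervals; outside of `O(2^l)` dyadic intervals a log-concave law is linear up to a relative error
   `K' 8^(-l)`, by pigeonhole the laws can be assumed to be almost equal in the exceptional ones,
   and the rest is a symplectic form of vectors of small norm in a complex Hilbert space, which allows at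
   most `exp (C K'^2 / (32^l ε))` vectors in general position; `2^l ≈ ε^(-1/6)`.

The upper bound for `dP w` is a construction with at most `2 w` elements (see `PolylogarithmicRate`).
-/

set_option autoImplicit false

namespace Pool.Agent.Results.MP_c890a7_co.PolynomialSize

open Pool.Agent.H13R3.WB Pool.Agent.H931R3.Bal

/-- The infimum of the balance constants of the finite posets of width `w` with at most `w^(13/10)`
elements. -/
noncomputable def dP (w : ℕ) : ℝ :=
  sInf {d : ℝ | ∃ (P : Type) (_ : Fintype P) (_ : PartialOrder P),
    (Fintype.card P : ℝ) ≤ (w : ℝ) ^ (13 / 10 : ℝ) ∧ HasWidth P w ∧ balance P = d}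

theorem result :
    -- posets with an antichain of `w` elements and at most `w^(13/10)` elements
    (∃ C : ℝ, 1 ≤ C ∧ ∀ (w : ℕ) (ε : ℝ), 0 < ε → ε ≤ 1 / 2 →
      Real.exp (C * ε ^ (-(1 / 6 : ℝ)) * Real.log (2 / ε) ^ 2) ≤ w →
      ∀ (P : Type) [Fintype P] [PartialOrder P] (A : Finset P), IsAntichain (· ≤ ·) (A : Set P) →
        A.card = w → (Fintype.card P : ℝ) ≤ (w : ℝ) ^ (13 / 10 : ℝ) → 1 / 2 - ε ≤ balance P) ∧
    -- the same as a rate
    (∃ C : ℝ, 1 ≤ C ∧ ∀ (P : Type) [Fintype P] [PartialOrder P] (A : Finset P),
      IsAntichain (· ≤ ·) (A : Set P) → 16 ≤ A.card →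
      (Fintype.card P : ℝ) ≤ (A.card : ℝ) ^ (13 / 10 : ℝ) →
      1 / 2 - (C * (Real.log (Real.log A.card) ^ 2 / Real.log A.card)) ^ 6 ≤ balance P) ∧
    -- two-sided bounds for the infimum `dP w`, and its growth
    ∃ (C : ℝ) (w₀ : ℕ), 1 ≤ C ∧ ∀ w : ℕ, w₀ ≤ w →
      (1 / 2 - (C * (Real.log (Real.log w) ^ 2 / Real.log w)) ^ 6 ≤ dP w ∧
        dP w ≤ 1 / 2 - 1 / Real.log w ^ 3061) ∧
      (∀ v : ℕ, Real.exp (Real.log w ^ 511) ≤ v → dP w < dP v) ∧
      ∃ u : ℕ, w ≤ u ∧ (u : ℝ) ≤ Real.exp (Real.log w ^ 511) ∧ dP u < dP (u + 1) :=
  ⟨Pool.Agent.H34.BL.t_thmL, Pool.Agent.H34.BL.t_rateL, Pool.Agent.H34.BL.t_finL⟩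

end Pool.Agent.Results.MP_c890a7_co.PolynomialSize
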